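import Mathlib

set_option autoImplicit false

/-!
# Powers of a space of numbers, by a valuation

`V` is a finite dimensional subspace over `k` of a field `K`, containing two elements whose quotient is
transcendental over `k`.  Then the dimension of `V ^ (n+1)` is at least `(n+2)/2` times that of `V`.
-/

open Module Submodule

namespace Pool.Agent.W245.HF

section val

variable {k K : Type*} [Field k] [Field K] [Algebra k K]

theorem exists_val (t : K) (ht : Transcendental k t) :
    ∃ B : ValuationSubring K, (∀ c : k, c ≠ 0 → B.valuation (algebraMap k K c) = 1) ∧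
      B.valuation t < 1 := by
  let A : Subring K := (Algebra.adjoin k {t}).toSubring
  have htA : t ∈ A := Algebra.subset_adjoin (Set.mem_singleton t)
  let t' : A := ⟨t, htA⟩
  have hI : Ideal.span {t'} ≠ ⊤ := by
    intro h
    rw [Ideal.eq_top_iff_one, Ideal.mem_span_singleton] at h
    obtain ⟨a, ha⟩ := h
    have ha2 : (a : K) ∈ Algebra.adjoin k {t} := a.2
    rw [Algebra.adjoin_singleton_eq_range_aeval] at ha2
    obtain ⟨p, hp⟩ := ha2
    have h1 : (1 : K) = t * (a : K) := by
      have := congrArg Subtype.val ha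
      simpa using this
    have h2 : Polynomial.aeval t (1 - Polynomial.X * p) = 0 := by
      rw [map_sub, map_one, map_mul, Polynomial.aeval_X]
      have : (Polynomial.aeval t) p = (a : K) := hp
      rw [this, ← h1, sub_self]
    have h3 := (transcendental_iff.1 ht) _ h2
    have h4 := congrArg (Polynomial.eval 0) h3
    simp at h4
  obtain ⟨B, hB, hB2⟩ := Ideal.image_subset_nonunits_valuationSubring (Ideal.span {t'}) hI
  have hmem : ∀ c : k, algebraMap k K c ∈ B := fun c =>
    hB (show algebraMap k K c ∈ A from (Algebra.adjoin k {t}).algebraMap_mem c)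
  refine ⟨B, fun c hc => ?_, ?_⟩
  · have h1 : B.valuation (algebraMap k K c) ≤ 1 := (B.valuation_le_one_iff _).2 (hmem c)
    have h2 : B.valuation (algebraMap k K c⁻¹) ≤ 1 := (B.valuation_le_one_iff _).2 (hmem c⁻¹)
    rw [map_inv₀, map_inv₀] at h2
    have h0 : B.valuation (algebraMap k K c) ≠ 0 := by
      rw [Valuation.ne_zero_iff]
      simpa using hc
    refine le_antisymm h1 ?_
    have h3 := mul_le_mul_right h2 (B.valuation (algebraMap k K c))
    rw [mul_inv_cancel₀ h0, mul_one] at h3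
    exact h3
  · have h1 : t ∈ B.nonunits := hB2 ⟨t', Ideal.subset_span (Set.mem_singleton _), rfl⟩
    exact (B.mem_nonunits_iff).1 h1

end val

section grow

variable {k K Γ : Type*} [Field k] [Field K] [Algebra k K] [LinearOrderedCommGroupWithZero Γ]

theorem v_smul (v : Valuation K Γ) (hv : ∀ c : k, c ≠ 0 → v (algebraMap k K c) = 1) (c : k) (x : K) :
    v (c • x) ≤ v x := by
  rw [Algebra.smul_def, map_mul]
  by_cases hc : c = 0
  · simp [hc]
  · rw [hv c hc, one_mul]

/-- the elements of `V` of value at most `g` -/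
def Ble (v : Valuation K Γ) (hv : ∀ c : k, c ≠ 0 → v (algebraMap k K c) = 1) (V : Submodule k K) (g : Γ) :
    Submodule k K where
  carrier := {x | x ∈ V ∧ v x ≤ g}
  add_mem' := fun {a b} ha hb => ⟨V.add_mem ha.1 hb.1, v.map_add_le ha.2 hb.2⟩
  zero_mem' := ⟨V.zero_mem, by simp⟩
  smul_mem' := fun c x hx => ⟨V.smul_mem c hx.1, (v_smul v hv c x).trans hx.2⟩

/-- the elements of `V` of value less than `g` -/
def Blt (v : Valuation K Γ) (hv : ∀ c : k, c ≠ 0 → v (algebraMap k K c) = 1) (V : Submodule k K) (g : Γ)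
    (hg : 0 < g) : Submodule k K where
  carrier := {x | x ∈ V ∧ v x < g}
  add_mem' := fun {a b} ha hb => ⟨V.add_mem ha.1 hb.1, v.map_add_lt ha.2 hb.2⟩
  zero_mem' := ⟨V.zero_mem, by simpa using hg⟩
  smul_mem' := fun c x hx => ⟨V.smul_mem c hx.1, (v_smul v hv c x).trans_lt hx.2⟩

theorem finrank_mul (a : K) (ha : a ≠ 0) (V : Submodule k K) :
    finrank k (V.map (LinearMap.mulLeft k a)) = finrank k V := by
  have hinj : Function.Injective (LinearMap.mulLeft k a) := fun x y h => mul_left_cancel₀ ha h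
  exact (Submodule.equivMapOfInjective _ hinj V).finrank_eq.symm

theorem finrank_sup_of_disjoint (S U : Submodule k K) [FiniteDimensional k S] [FiniteDimensional k U]
    (h : ∀ x ∈ S, x ∈ U → x = 0) : finrank k ↥(S ⊔ U) = finrank k S + finrank k U := by
  have h1 := Submodule.finrank_sup_add_finrank_inf_eq S U
  have h2 : S ⊓ U = ⊥ := by
    rw [eq_bot_iff]
    intro x hx
    simpa using h x hx.1 hx.2
  rw [h2, finrank_bot, add_zero] at h1
  exact h1

variable (v : Valuation K Γ) (hv : ∀ c : k, c ≠ 0 → v (algebraMap k K c) = 1)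
  (V : Submodule k K) [FiniteDimensional k V]

include hv

/-- an element of smallest value -/
theorem exists_min (x : K) (hx : x ∈ V) (hx0 : x ≠ 0) :
    ∃ a ∈ V, a ≠ 0 ∧ ∀ z ∈ V, z ≠ 0 → v a ≤ v z := by
  have hne : ∃ n : ℕ, ∃ a ∈ V, a ≠ 0 ∧ finrank k (Ble v hv V (v a)) = n := ⟨_, x, hx, hx0, rfl⟩
  classical
  obtain ⟨a, ha, ha0, h⟩ := Nat.find_spec hne
  refine ⟨a, ha, ha0, fun z hz hz0 => ?_⟩
  by_contra hlt
  rw [not_le] at hlt
  have hle : Ble v hv V (v z) < Ble v hv V (v a) := by
    refine lt_of_le_of_ne (fun y hy => ⟨hy.1, hy.2.trans hlt.le⟩) fun he => ?_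
    have : a ∈ Ble v hv V (v z) := by
      rw [he]
      exact ⟨ha, le_rfl⟩
    exact absurd this.2 (not_le.2 hlt)
  have hfd : FiniteDimensional k (Ble v hv V (v a)) :=
    Submodule.finiteDimensional_of_le (S₂ := V) fun y hy => hy.1
  have h2 := Submodule.finrank_lt_finrank_of_lt hle
  have h3 := Nat.find_min' hne ⟨z, hz, hz0, rfl⟩
  omega

/-- an element of largest value -/
theorem exists_max (x : K) (hx : x ∈ V) (hx0 : x ≠ 0) :
    ∃ a ∈ V, a ≠ 0 ∧ ∀ z ∈ V, v z ≤ v a := by
  have hne : ∃ n : ℕ, ∃ a ∈ V, a ≠ 0 ∧ finrank k V - finrank k (Ble v hv V (v a)) = n := ⟨_, x, hx, hx0, rfl⟩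
  classical
  obtain ⟨a, ha, ha0, h⟩ := Nat.find_spec hne
  refine ⟨a, ha, ha0, fun z hz => ?_⟩
  by_contra hlt
  rw [not_le] at hlt
  have hz0 : z ≠ 0 := by
    rintro rfl
    simp at hlt
  have hle : Ble v hv V (v a) < Ble v hv V (v z) := by
    refine lt_of_le_of_ne (fun y hy => ⟨hy.1, hy.2.trans hlt.le⟩) fun he => ?_
    have : z ∈ Ble v hv V (v a) := by
      rw [he]
      exact ⟨hz, le_rfl⟩
    exact absurd this.2 (not_le.2 hlt)
  have hfd : FiniteDimensional k (Ble v hv V (v z)) :=
    Submodule.finiteDimensional_of_le (S₂ := V) fun y hy => hy.1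
  have h2 := Submodule.finrank_lt_finrank_of_lt hle
  have h4 : finrank k (Ble v hv V (v z)) ≤ finrank k V := Submodule.finrank_mono fun y hy => hy.1
  have h3 := Nat.find_min' hne ⟨z, hz, hz0, rfl⟩
  omega

omit hv in
theorem fg_pow (n : ℕ) : FiniteDimensional k ↥(V ^ n) := by
  have h : V.FG := (Submodule.fg_iff_finiteDimensional V).2 inferInstance
  exact (Submodule.fg_iff_finiteDimensional _).1 (h.pow n)

omit hv [FiniteDimensional k V] in
theorem pow_le_max (M : Γ) (hM : ∀ z ∈ V, v z ≤ M) (n : ℕ) : ∀ z ∈ V ^ (n + 1), v z ≤ M ^ (n + 1) := by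
  induction n with
  | zero => simpa using hM
  | succ n ih =>
    intro z hz
    rw [pow_succ] at hz
    refine Submodule.mul_induction_on hz ?_ ?_
    · intro a ha b hb
      rw [map_mul, pow_succ]
      exact mul_le_mul' (ih a ha) (hM b hb)
    · intro a b ha hb
      exact v.map_add_le ha hb

omit hv in
theorem bound1 (a b : K) (ha : a ∈ V) (ha0 : a ≠ 0) (hb : b ∈ V) (hb0 : b ≠ 0)
    (hmax : ∀ z ∈ V, v z ≤ v b) (U : Submodule k K) (hUV : U ≤ V)
    (hU : ∀ z ∈ U, z ≠ 0 → v a < v z) (n : ℕ) :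
    n * finrank k U + finrank k V ≤ finrank k ↥(V ^ (n + 1)) := by
  induction n with
  | zero => rw [zero_add, pow_one, zero_mul, zero_add]
  | succ n ih =>
    have h1 := fg_pow V (n + 1)
    have h2 := fg_pow V (n + 1 + 1)
    have hUf : FiniteDimensional k U := Submodule.finiteDimensional_of_le hUV
    have hle : (V ^ (n + 1)).map (LinearMap.mulLeft k a) ⊔ U.map (LinearMap.mulLeft k (b ^ (n + 1))) ≤
        V ^ (n + 1 + 1) := by
      refine sup_le ?_ ?_
      · rintro _ ⟨z, hz, rfl⟩
        rw [pow_succ', LinearMap.mulLeft_apply]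
        exact Submodule.mul_mem_mul ha hz
      · rintro _ ⟨z, hz, rfl⟩
        rw [pow_succ, LinearMap.mulLeft_apply]
        exact Submodule.mul_mem_mul (Submodule.pow_mem_pow V hb _) (hUV hz)
    have hdis : ∀ x ∈ (V ^ (n + 1)).map (LinearMap.mulLeft k a),
        x ∈ U.map (LinearMap.mulLeft k (b ^ (n + 1))) → x = 0 := by
      rintro x ⟨z, hz, rfl⟩ ⟨u, hu, he⟩
      by_contra hne
      have hu0 : u ≠ 0 := by
        rintro rfl
        rw [map_zero] at he
        exact hne he.symm
      have e1 : v (b ^ (n + 1) * u) = v (a * z) := congrArg v he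
      rw [map_mul, map_mul, map_pow] at e1
      have h3 := pow_le_max v V (v b) hmax n z hz
      have h4 := hU u hu hu0
      have hb1 : 0 < v b ^ (n + 1) := pow_pos (zero_lt_iff.2 ((Valuation.ne_zero_iff v).2 hb0)) _
      have h5 : v a * v z ≤ v b ^ (n + 1) * v a := by
        rw [mul_comm]
        exact mul_le_mul_left h3 _
      have h6 : v b ^ (n + 1) * v a < v b ^ (n + 1) * v u := mul_lt_mul_of_pos_left h4 hb1
      exact absurd e1 (h5.trans_lt h6).ne'
    have h3 := finrank_sup_of_disjoint _ _ hdis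
    rw [finrank_mul a ha0, finrank_mul _ (pow_ne_zero _ hb0)] at h3
    have h4 := Submodule.finrank_mono hle
    rw [h3] at h4
    have h5 : (n + 1) * finrank k U = n * finrank k U + finrank k U := by ring
    omega

/-- an auxiliary chain of spaces -/
def Ch (a b : K) (U : Submodule k K) : ℕ → Submodule k K
  | 0 => ⊥
  | n + 1 => (Ch a b U n).map (LinearMap.mulLeft k a) ⊔ U.map (LinearMap.mulLeft k (a * b ^ n))

omit hv [FiniteDimensional k V] in
theorem ch_le (a b : K) (ha : a ∈ V) (hb : b ∈ V) (U : Submodule k K) (hUV : U ≤ V) (n : ℕ) :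
    Ch a b U n ≤ V ^ (n + 1) := by
  induction n with
  | zero => exact bot_le
  | succ n ih =>
    refine sup_le ?_ ?_
    · rintro _ ⟨z, hz, rfl⟩
      rw [pow_succ', LinearMap.mulLeft_apply]
      exact Submodule.mul_mem_mul ha (ih hz)
    · rintro _ ⟨z, hz, rfl⟩
      rw [pow_succ, LinearMap.mulLeft_apply]
      refine Submodule.mul_mem_mul ?_ (hUV hz)
      rw [pow_succ']
      exact Submodule.mul_mem_mul ha (Submodule.pow_mem_pow V hb _)

omit hv in
theorem ch_spec (a b : K) (ha : a ∈ V) (ha0 : a ≠ 0) (hb : b ∈ V) (hb0 : b ≠ 0)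
    (hmin : ∀ z ∈ V, z ≠ 0 → v a ≤ v z) (hab : v a < v b) (U : Submodule k K) (hUV : U ≤ V)
    (hU : ∀ z ∈ U, v z < v b) (n : ℕ) :
    finrank k (Ch a b U n) = n * finrank k U ∧ ∀ z ∈ Ch a b U n, v z < v a * v b ^ n := by
  have hva : 0 < v a := zero_lt_iff.2 ((Valuation.ne_zero_iff v).2 ha0)
  have hvb : 0 < v b := zero_lt_iff.2 ((Valuation.ne_zero_iff v).2 hb0)
  induction n with
  | zero =>
    refine ⟨by rw [Ch, finrank_bot, zero_mul], fun z hz => ?_⟩
    have : z = 0 := by simpa [Ch] using hz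
    rw [this, map_zero, pow_zero, mul_one]
    exact hva
  | succ n ih =>
    have hUf : FiniteDimensional k U := Submodule.finiteDimensional_of_le hUV
    have hpf := fg_pow V (n + 1)
    have hCf : FiniteDimensional k (Ch a b U n) := Submodule.finiteDimensional_of_le (ch_le V a b ha hb U hUV n)
    have hc0 : a * b ^ n ≠ 0 := mul_ne_zero ha0 (pow_ne_zero _ hb0)
    have hvc : 0 < v (a * b ^ n) := zero_lt_iff.2 ((Valuation.ne_zero_iff v).2 hc0)
    have hdis : ∀ x ∈ (Ch a b U n).map (LinearMap.mulLeft k a),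
        x ∈ U.map (LinearMap.mulLeft k (a * b ^ n)) → x = 0 := by
      rintro x ⟨z, hz, rfl⟩ ⟨u, hu, he⟩
      by_contra hne
      have hu0 : u ≠ 0 := by
        rintro rfl
        rw [map_zero] at he
        exact hne he.symm
      have e1 : v (a * b ^ n * u) = v (a * z) := congrArg v he
      rw [map_mul v a z, map_mul v (a * b ^ n) u] at e1
      have h3 := ih.2 z hz
      have h4 := hmin u (hUV hu) hu0
      have h5 : v a * v z < v a * (v a * v b ^ n) := mul_lt_mul_of_pos_left h3 hva
      have h6 : v a * (v a * v b ^ n) ≤ v (a * b ^ n) * v u := by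
        rw [map_mul, map_pow, mul_comm (v a) (v a * v b ^ n)]
        exact mul_le_mul_right h4 _
      exact absurd e1 (h5.trans_le h6).ne'
    refine ⟨?_, ?_⟩
    · rw [Ch, finrank_sup_of_disjoint _ _ hdis, finrank_mul a ha0, finrank_mul _ hc0, ih.1]
      ring
    · intro z hz
      rw [Ch] at hz
      obtain ⟨x, ⟨s, hs, rfl⟩, y, ⟨u, hu, rfl⟩, rfl⟩ := Submodule.mem_sup.1 hz
      refine v.map_add_lt ?_ ?_
      · rw [LinearMap.mulLeft_apply, map_mul]
        refine (mul_lt_mul_of_pos_left (ih.2 s hs) hva).trans_le ?_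
        rw [pow_succ']
        exact mul_le_mul_right (mul_le_mul_left hab.le _) _
      · rw [LinearMap.mulLeft_apply, map_mul v (a * b ^ n) u]
        have h7 := mul_lt_mul_of_pos_left (hU u hu) hvc
        have h8 : v (a * b ^ n) * v b = v a * v b ^ (n + 1) := by
          rw [map_mul, map_pow, pow_succ, mul_assoc]
        rw [h8] at h7
        exact h7

omit hv in
theorem bound2 (a b : K) (ha : a ∈ V) (ha0 : a ≠ 0) (hb : b ∈ V) (hb0 : b ≠ 0)
    (hmin : ∀ z ∈ V, z ≠ 0 → v a ≤ v z) (hab : v a < v b) (U : Submodule k K) (hUV : U ≤ V)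
    (hU : ∀ z ∈ U, v z < v b) (n : ℕ) :
    n * finrank k U + finrank k V ≤ finrank k ↥(V ^ (n + 1)) := by
  obtain ⟨h1, h2⟩ := ch_spec v V a b ha ha0 hb hb0 hmin hab U hUV hU n
  have hpf := fg_pow V (n + 1)
  have hCf : FiniteDimensional k (Ch a b U n) := Submodule.finiteDimensional_of_le (ch_le V a b ha hb U hUV n)
  have hb1 : b ^ n ≠ 0 := pow_ne_zero _ hb0
  have hle : Ch a b U n ⊔ V.map (LinearMap.mulLeft k (b ^ n)) ≤ V ^ (n + 1) := by
    refine sup_le (ch_le V a b ha hb U hUV n) ?_
    rintro _ ⟨z, hz, rfl⟩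
    rw [pow_succ, LinearMap.mulLeft_apply]
    exact Submodule.mul_mem_mul (Submodule.pow_mem_pow V hb _) hz
  have hdis : ∀ x ∈ Ch a b U n, x ∈ V.map (LinearMap.mulLeft k (b ^ n)) → x = 0 := by
    rintro x hx ⟨u, hu, rfl⟩
    by_contra hne
    have hu0 : u ≠ 0 := by
      rintro rfl
      rw [map_zero] at hne
      exact hne rfl
    have h3 := h2 _ hx
    rw [LinearMap.mulLeft_apply, map_mul, map_pow, mul_comm (v a)] at h3
    exact absurd h3 (not_lt.2 (mul_le_mul_right (hmin u hu hu0) _))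
  have h3 := finrank_sup_of_disjoint _ _ hdis
  rw [finrank_mul _ hb1, h1] at h3
  have h4 := Submodule.finrank_mono hle
  omega

/-- powers of a space on which a valuation is not constant -/
theorem grow_val (x y : K) (hx : x ∈ V) (hx0 : x ≠ 0) (hy : y ∈ V) (hxy : v x < v y) (n : ℕ) :
    (n + 2) * finrank k V ≤ 2 * finrank k ↥(V ^ (n + 1)) := by
  obtain ⟨a, ha, ha0, hmin⟩ := exists_min v hv V x hx hx0
  obtain ⟨b, hb, hb0, hmax⟩ := exists_max v hv V x hx hx0
  have hab : v a < v b := ((hmin x hx hx0).trans_lt hxy).trans_le (hmax y hy)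
  have hvb : 0 < v b := zero_lt_iff.2 ((Valuation.ne_zero_iff v).2 hb0)
  -- the bottom piece and a complement
  have hBV : Ble v hv V (v a) ≤ V := fun z hz => hz.1
  obtain ⟨C, hC⟩ := Submodule.exists_isCompl (Ble v hv V (v a))
  have hBf : FiniteDimensional k (Ble v hv V (v a)) := Submodule.finiteDimensional_of_le hBV
  have hUf : FiniteDimensional k ↥(C ⊓ V) := Submodule.finiteDimensional_of_le inf_le_right
  have h1 := bound1 v V a b ha ha0 hb hb0 hmax (C ⊓ V) inf_le_right (fun z hz hz0 => by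
    by_contra hlt
    rw [not_lt] at hlt
    have : z ∈ Ble v hv V (v a) ⊓ C := ⟨⟨hz.2, hlt⟩, hz.1⟩
    rw [hC.inf_eq_bot] at this
    exact hz0 (by simpa using this)) n
  have h2 : finrank k (Ble v hv V (v a)) + finrank k ↥(C ⊓ V) = finrank k V := by
    rw [← finrank_sup_of_disjoint]
    · rw [← sup_inf_assoc_of_le C hBV, hC.sup_eq_top, top_inf_eq]
    · intro z hz hz2
      have : z ∈ Ble v hv V (v a) ⊓ C := ⟨hz, hz2.1⟩
      rw [hC.inf_eq_bot] at this
      simpa using this
  -- the space without the top piece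
  have h3 := bound2 v V a b ha ha0 hb hb0 hmin hab (Blt v hv V (v b) hvb) (fun z hz => hz.1)
    (fun z hz => hz.2) n
  have hTf : FiniteDimensional k (Blt v hv V (v b) hvb) :=
    Submodule.finiteDimensional_of_le (S₂ := V) fun z hz => hz.1
  have h4 : finrank k (Ble v hv V (v a)) ≤ finrank k (Blt v hv V (v b) hvb) :=
    Submodule.finrank_mono fun z hz => ⟨hz.1, hz.2.trans_lt hab⟩
  have h5 : n * finrank k (Ble v hv V (v a)) + n * finrank k ↥(C ⊓ V) = n * finrank k V := by
    rw [← mul_add, h2]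
  have h6 := Nat.mul_le_mul_left n h4
  have h7 : (n + 2) * finrank k V = n * finrank k V + 2 * finrank k V := by ring
  omega

end grow

/-- powers of a space containing two elements with a transcendental quotient -/
theorem grow {k K : Type*} [Field k] [Field K] [Algebra k K] (V : Submodule k K) [FiniteDimensional k V]
    (x y : K) (hx : x ∈ V) (hy : y ∈ V) (hxy : Transcendental k (x / y)) (n : ℕ) :
    (n + 2) * finrank k V ≤ 2 * finrank k ↥(V ^ (n + 1)) := by
  obtain ⟨B, h1, h2⟩ := exists_val (x / y) hxy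
  have h0 : x / y ≠ 0 := by
    intro h
    rw [h] at hxy
    exact hxy (isAlgebraic_zero)
  have hx0 : x ≠ 0 := fun h => h0 (by rw [h, zero_div])
  have hy0 : y ≠ 0 := fun h => h0 (by rw [h, div_zero])
  refine grow_val B.valuation h1 V x y hx hx0 hy ?_ n
  rw [map_div₀] at h2
  have hy1 : 0 < B.valuation y := zero_lt_iff.2 ((Valuation.ne_zero_iff _).2 hy0)
  exact (div_lt_one₀ hy1).1 h2

end Pool.Agent.W245.HF
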