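import Pool.Agent.W245.HF.Grow
import Pool.Agent.W245.BR.Zdim

set_option autoImplicit false

/-!
# Polynomials in odd zeta values and a transcendental number
-/

open Module

noncomputable section

namespace Pool.Agent.W245.HF

open Pool.Agent.W245.BR

/-- `t, ζ(3), ζ(5), ..., ζ(2s+1)` -/
def pt (t : ℂ) (s : ℕ) : Option (Fin s) → ℂ
  | none => t
  | some j => riemannZeta (2 * ((j : ℕ) : ℂ) + 3)

/-- the values of the polynomials of degree at most `D` -/
def Va {σ : Type} (x : σ → ℂ) (D : ℕ) : Submodule ℚ ℂ :=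
  (MvPolynomial.restrictTotalDegree σ ℚ D).map (MvPolynomial.aeval x).toLinearMap

theorem mem_Va {σ : Type} (x : σ → ℂ) (D : ℕ) (z : ℂ) :
    z ∈ Va x D ↔ ∃ P : MvPolynomial σ ℚ, P.totalDegree ≤ D ∧ MvPolynomial.aeval x P = z := by
  unfold Va
  simp only [Submodule.mem_map, MvPolynomial.mem_restrictTotalDegree, AlgHom.toLinearMap_apply]

theorem Va_mul {σ : Type} (x : σ → ℂ) (D E : ℕ) : Va x D * Va x E ≤ Va x (D + E) := by
  rw [Submodule.mul_le]
  intro a ha b hb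
  rw [mem_Va] at ha hb ⊢
  obtain ⟨P, hP, rfl⟩ := ha
  obtain ⟨Q, hQ, rfl⟩ := hb
  exact ⟨P * Q, (MvPolynomial.totalDegree_mul P Q).trans (add_le_add hP hQ), map_mul _ _ _⟩

theorem Va_pow {σ : Type} (x : σ → ℂ) (n : ℕ) : Va x 1 ^ (n + 1) ≤ Va x (n + 1) := by
  induction n with
  | zero => rw [pow_one]
  | succ n ih =>
    rw [pow_succ]
    exact (Submodule.mul_le.2 fun a ha b hb => Submodule.mul_mem_mul (ih ha) hb).trans (Va_mul x (n + 1) 1)

theorem one_mem_Va {σ : Type} (x : σ → ℂ) (D : ℕ) : (1 : ℂ) ∈ Va x D := by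
  rw [mem_Va]
  exact ⟨1, by simp, map_one _⟩

theorem X_mem_Va {σ : Type} (x : σ → ℂ) (i : σ) : x i ∈ Va x 1 := by
  rw [mem_Va]
  exact ⟨MvPolynomial.X i, by simp, by simp⟩

theorem Va_finite {σ : Type} [Finite σ] (x : σ → ℂ) (D : ℕ) : FiniteDimensional ℚ (Va x D) := by
  unfold Va
  infer_instance

theorem zeta_grow : ∃ c : ℝ, 0 < c ∧ ∀ t : ℂ, Transcendental ℚ t → ∀ s D : ℕ, 1 ≤ D →
    c * ((D : ℝ) + 1) * Real.log ((s : ℝ) + 1) ≤ (finrank ℚ (Va (pt t s) D) : ℝ) := by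
  obtain ⟨c, hc, h⟩ := zeta_dim
  refine ⟨c / 3, by positivity, fun t ht s D hD => ?_⟩
  obtain ⟨n, rfl⟩ : ∃ n, D = n + 1 := ⟨D - 1, by omega⟩
  have hf1 := Va_finite (pt t s) 1
  have hf2 := Va_finite (pt t s) (n + 1)
  have h1 : (1 : ℂ) ∈ Va (pt t s) 1 := one_mem_Va _ _
  have h2 : t ∈ Va (pt t s) 1 := X_mem_Va (pt t s) none
  have h3 := grow (Va (pt t s) 1) t 1 h2 h1 (by rwa [div_one]) n
  have h4 : finrank ℚ ↥(Va (pt t s) 1 ^ (n + 1)) ≤ finrank ℚ (Va (pt t s) (n + 1)) :=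
    Submodule.finrank_mono (Va_pow _ n)
  have h5 : finrank ℚ (Submodule.span ℚ (Set.range fun j : Fin s => oz j)) ≤ finrank ℚ (Va (pt t s) 1) := by
    refine Submodule.finrank_mono ?_
    rw [Submodule.span_le]
    rintro _ ⟨j, rfl⟩
    exact X_mem_Va (pt t s) (some j)
  have h6 : 2 ≤ finrank ℚ (Va (pt t s) 1) := by
    have hlt : Submodule.span ℚ {(1 : ℂ)} < Va (pt t s) 1 := by
      refine lt_of_le_of_ne ?_ fun he => ?_
      · rw [Submodule.span_le, Set.singleton_subset_iff]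
        exact h1
      · rw [← he, Submodule.mem_span_singleton] at h2
        obtain ⟨q, hq⟩ := h2
        refine ht ?_
        rw [← hq, Algebra.smul_def, mul_one]
        exact isAlgebraic_algebraMap q
    have := Submodule.finrank_lt_finrank_of_lt hlt
    rw [finrank_span_singleton one_ne_zero] at this
    omega
  have h7 := h s
  have h3' : ((n : ℝ) + 2) * (finrank ℚ (Va (pt t s) 1) : ℝ) ≤ 2 * (finrank ℚ (Va (pt t s) (n + 1)) : ℝ) := by
    exact_mod_cast h3.trans (Nat.mul_le_mul_left 2 h4)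
  have h5' : (finrank ℚ (Submodule.span ℚ (Set.range fun j : Fin s => oz j)) : ℝ) ≤
      (finrank ℚ (Va (pt t s) 1) : ℝ) := by exact_mod_cast h5
  have h6' : (2 : ℝ) ≤ (finrank ℚ (Va (pt t s) 1) : ℝ) := by exact_mod_cast h6
  have h8 : c * Real.log ((s : ℝ) + 1) ≤ 3 / 2 * (finrank ℚ (Va (pt t s) 1) : ℝ) := by linarith
  have h9 := mul_le_mul_of_nonneg_left h8 (show (0 : ℝ) ≤ (n : ℝ) + 2 by positivity)
  push_cast
  nlinarith

end Pool.Agent.W245.HF
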